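import Mathlib

/-!
# The determinant of `1 - B` for a walk matrix that is monotone in the level
-/

set_option autoImplicit false

namespace Pool.Agent.Helper52.EV2

open Matrix

/-- If every nonzero entry `B i j` goes up in the level `b`, then `det (1 - B) = 1`. -/
theorem det_one_sub {V R : Type*} [Fintype V] [DecidableEq V] [CommRing R] (B : Matrix V V R) (b : V → ℤ)
    (hB : ∀ i j, B i j ≠ 0 → b i < b j) : (1 - B).det = 1 := by
  have h0 : ∀ i j, b j ≤ b i → B i j = 0 := fun i j h => by
    by_contra hne
    exact absurd (hB i j hne) (not_lt.2 h)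
  have hT : (1 - B).BlockTriangular b := by
    intro i j hij
    have hne : i ≠ j := fun h => by rw [h] at hij; exact lt_irrefl _ hij
    rw [Matrix.sub_apply, Matrix.one_apply_ne hne, h0 i j hij.le, sub_zero]
  rw [hT.det]
  refine Finset.prod_eq_one fun a _ => ?_
  have : (1 - B).toSquareBlock b a = 1 := by
    ext ⟨i, hi⟩ ⟨j, hj⟩
    rw [Matrix.toSquareBlock_def, Matrix.of_apply, Matrix.sub_apply, h0 i j (le_of_eq (hj.trans hi.symm)), sub_zero]
    by_cases h : i = j
    · subst h; simp
    · rw [Matrix.one_apply_ne h, Matrix.one_apply_ne (fun h' => h (congrArg Subtype.val h'))]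
  rw [this, Matrix.det_one]

/-- The same for walks that go down. -/
theorem det_one_sub' {V R : Type*} [Fintype V] [DecidableEq V] [CommRing R] (B : Matrix V V R) (b : V → ℤ)
    (hB : ∀ i j, B i j ≠ 0 → b j < b i) : (1 - B).det = 1 :=
  det_one_sub B (fun i => - b i) fun i j h => neg_lt_neg (hB i j h)

end Pool.Agent.Helper52.EV2
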